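import Pool.Agent.helper16.GK.Spec

/-!
# Project GK (MP_2e0e07_nt), row FRQ (Frobenius elements exist in the absolute Galois group)
-/

set_option autoImplicit false

namespace Pool.Agent.GK

open NumberField IsDedekindDomain

theorem FRQ_pow (K : Type) [Field K] [NumberField K] (Q : Ideal (𝓞 (AlgebraicClosure K))) (v : Pl K) (hQ : Q.IsPrime)
    (h : Q.under (𝓞 K) = v.asIdeal) : ∃ φ : (𝓞 (AlgebraicClosure K) ⧸ Q) ≃+* (𝓞 (AlgebraicClosure K) ⧸ Q),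
      (∀ y, φ y = y ^ nv K v) ∧ ∀ x : 𝓞 K, φ (Ideal.Quotient.mk Q (algebraMap (𝓞 K) (𝓞 (AlgebraicClosure K)) x)) =
        Ideal.Quotient.mk Q (algebraMap (𝓞 K) (𝓞 (AlgebraicClosure K)) x) := by
  have : Q.LiesOver v.asIdeal := ⟨h.symm⟩
  have hv : v.asIdeal.IsMaximal := v.isMaximal
  have hint : Algebra.IsIntegral (𝓞 K) (𝓞 (AlgebraicClosure K)) := inferInstance
  have hQm : Q.IsMaximal := by
    refine Ideal.isMaximal_of_isIntegral_of_isMaximal_comap (R := 𝓞 K) Q ?_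
    rw [← Ideal.under_def, h]
    exact hv
  let f0 : Field (𝓞 K ⧸ v.asIdeal) := Ideal.Quotient.field v.asIdeal
  let f1 : Field (𝓞 (AlgebraicClosure K) ⧸ Q) := Ideal.Quotient.field Q
  have fin0 : Finite (𝓞 K ⧸ v.asIdeal) := Ideal.finiteQuotientOfFreeOfNeBot v.asIdeal v.ne_bot
  let ft0 : Fintype (𝓞 K ⧸ v.asIdeal) := Fintype.ofFinite _
  have int1 : Algebra.IsIntegral (𝓞 K ⧸ v.asIdeal) (𝓞 (AlgebraicClosure K) ⧸ Q) := inferInstance
  have alg1 : Algebra.IsAlgebraic (𝓞 K ⧸ v.asIdeal) (𝓞 (AlgebraicClosure K) ⧸ Q) := Algebra.IsIntegral.isAlgebraic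
  have hcard : nv K v = Fintype.card (𝓞 K ⧸ v.asIdeal) := by
    rw [nv, Ideal.absNorm_apply, Submodule.cardQuot_apply, Nat.card_eq_fintype_card]
  refine ⟨(FiniteField.frobeniusAlgEquivOfAlgebraic (𝓞 K ⧸ v.asIdeal) (𝓞 (AlgebraicClosure K) ⧸ Q)).toRingEquiv, fun y => ?_, fun x => ?_⟩
  · rw [hcard]
    rfl
  · exact (FiniteField.frobeniusAlgEquivOfAlgebraic (𝓞 K ⧸ v.asIdeal) (𝓞 (AlgebraicClosure K) ⧸ Q)).commutes (Ideal.Quotient.mk v.asIdeal x)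

theorem FRQ (hSTB : STB_stmt) : FRQ_stmt := by
  intro K _ _ Q v hQ h
  obtain ⟨φ, h1, h2⟩ := FRQ_pow K Q v hQ h
  obtain ⟨σ, hσ⟩ := hSTB K (AlgebraicClosure K) Q hQ φ h2
  refine ⟨σ, fun x => ?_⟩
  rw [← Ideal.Quotient.eq_zero_iff_mem, map_sub, map_pow, hσ x, h1, sub_self]

end Pool.Agent.GK
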